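import Pool.Agent.Helper49.EV2.Row

/-!
# EV2, R5': signs, degree and parity of the Conway polynomial of a positive diagram in rows
-/

set_option autoImplicit false

namespace Pool.Agent.Helper76.EV2

open Polynomial Pool.Agent.Helper85.Exp Pool.Agent.Helper60.EV2 Pool.Agent.Helper27.EV2

theorem unv_card {W : Word} (hW : Ok W) (b : Pt W) :
    (unv (allPos (shadow W hW)) b 0).card ≤ crossings W := by
  classical
  rw [← Pool.Agent.Helper49.EV2.card_und hW]
  apply Finset.card_le_card
  intro i hi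
  have h1 := (mem_unv.1 hi).1
  exact Finset.mem_filter.2 ⟨Finset.mem_univ _, h1.1, h1.2.1⟩

/-- R5': degree, signs, parity -/
theorem nab_nn {W : Word} (hW : Ok W) (hne : W ≠ []) {nab : Dg (shadow W hW) → ℤ[X]} (h : Cs nab) :
    (∀ k, 0 ≤ (nab (allPos _)).coeff k) ∧ (nab (allPos _)).natDegree ≤ crossings W ∧
      ∀ j k, (nab (allPos _)).coeff j ≠ 0 → (nab (allPos _)).coeff k ≠ 0 → j % 2 = k % 2 := by
  obtain ⟨b, _⟩ := Pool.Agent.Helper49.EV2.exists_base hW hne
  have hD : ∀ i, (shadow W hW).op i ≠ i → (allPos (shadow W hW)).st i = .pos ∨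
      (allPos (shadow W hW)).st i = .smooth := fun i _ => Or.inl rfl
  refine ⟨fun k => coeff_nonneg (h.cw b) _ hD k, ?_, fun j k hj hk => parity (h.cw b) _ hD hj hk⟩
  rw [natDegree_le_iff_coeff_eq_zero]
  intro m hm
  exact coeff_eq_zero (h.cw b) _ hD (lt_of_le_of_lt (unv_card hW b) hm)

end Pool.Agent.Helper76.EV2
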